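import Pool.Agent.helper5.LDH.Spec

/-!
# Project LDH (MP_4467b5_nt), row `ldh:WD`: Weyl–van der Corput
-/

set_option autoImplicit false

namespace Pool.Agent.LDH

/-- the shifted sequence, zero outside of `[Q, Q + N)` -/
noncomputable def WD_u (y : ℕ → ℂ) (N Q m : ℕ) : ℂ := if Q ≤ m ∧ m < Q + N then y (m - Q) else 0

theorem WD_zero (y : ℕ → ℂ) (N Q m : ℕ) (h : ¬ (Q ≤ m ∧ m < Q + N)) : WD_u y N Q m = 0 := by
  unfold WD_u
  rw [if_neg h]

theorem WD_val (y : ℕ → ℂ) (N Q i : ℕ) (h : i < N) : WD_u y N Q (Q + i) = y i := by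
  unfold WD_u
  rw [if_pos ⟨by omega, by omega⟩, Nat.add_sub_cancel_left]

/-- a sum over a shifted window of a function supported on `[Q, Q + M)` -/
theorem WD_win (g : ℕ → ℂ) (N Q M q : ℕ) (hM : M ≤ N) (hq : q ≤ Q) (hg : ∀ m, ¬ (Q ≤ m ∧ m < Q + M) → g m = 0) :
    ∑ k ∈ Finset.range (N + Q), g (k + q) = ∑ i ∈ Finset.range M, g (Q + i) := by
  have h1 : ∑ k ∈ Finset.range (N + Q), g (k + q) = ∑ m ∈ Finset.Ico q (N + Q + q), g m := by
    rw [Finset.sum_Ico_eq_sum_range, Nat.add_sub_cancel]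
    exact Finset.sum_congr rfl fun k _ => by rw [add_comm]
  have h2 : ∑ m ∈ Finset.Ico Q (Q + M), g m = ∑ i ∈ Finset.range M, g (Q + i) := by
    rw [Finset.sum_Ico_eq_sum_range, Nat.add_sub_cancel_left]
  rw [h1, ← h2]
  symm
  refine Finset.sum_subset ?_ ?_
  · intro m hm
    rw [Finset.mem_Ico] at hm ⊢
    omega
  · intro m _ hm
    rw [Finset.mem_Ico] at hm
    exact hg m hm

/-- the correlation -/
noncomputable def WD_c (y : ℕ → ℂ) (N h : ℕ) : ℂ := ∑ i ∈ Finset.range (N - h), y (i + h) * (starRingEnd ℂ) (y i)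

theorem WD_corr (y : ℕ → ℂ) (N Q h q : ℕ) (hq : q ≤ Q) :
    ∑ k ∈ Finset.range (N + Q), WD_u y N Q (k + q + h) * (starRingEnd ℂ) (WD_u y N Q (k + q)) = WD_c y N h := by
  rw [WD_win (fun m => WD_u y N Q (m + h) * (starRingEnd ℂ) (WD_u y N Q m)) N Q (N - h) q (Nat.sub_le _ _) hq ?_]
  · unfold WD_c
    refine Finset.sum_congr rfl fun i hi => ?_
    rw [Finset.mem_range] at hi
    have h1 := WD_val y N Q i (by omega)
    have h2 := WD_val y N Q (i + h) (by omega)
    rw [show Q + (i + h) = Q + i + h by ring] at h2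
    simp only [h1, h2]
  · intro m hm
    by_cases h1 : Q ≤ m ∧ m < Q + N
    · have h2 : ¬ (Q ≤ m + h ∧ m + h < Q + N) := by omega
      simp only [WD_zero y N Q (m + h) h2, zero_mul]
    · simp only [WD_zero y N Q m h1, map_zero, mul_zero]

theorem WD_core (y : ℕ → ℂ) (N Q : ℕ) (hy : ∀ i, ‖y i‖ ≤ 1) (hQ : 1 ≤ Q) (hN : Q ≤ N) :
    ‖∑ i ∈ Finset.range N, y i‖ ^ 2 ≤ 2 * ((N : ℝ) / Q) * ((N : ℝ) + 2 * ∑ q ∈ Finset.Ioo 0 Q, ‖WD_c y N q‖) := by
  set u := WD_u y N Q with hu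
  set S := ∑ i ∈ Finset.range N, y i with hS
  set T := ∑ q ∈ Finset.Ioo 0 Q, ‖WD_c y N q‖ with hT
  have hT0 : 0 ≤ T := Finset.sum_nonneg fun _ _ => norm_nonneg _
  -- the sum in every window
  have hwin : ∀ q ∈ Finset.range Q, ∑ k ∈ Finset.range (N + Q), u (k + q) = S := by
    intro q hq
    rw [Finset.mem_range] at hq
    rw [WD_win u N Q N q le_rfl hq.le (fun m hm => WD_zero y N Q m hm)]
    exact Finset.sum_congr rfl fun i hi => WD_val y N Q i (Finset.mem_range.1 hi)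
  have hQS : (Q : ℂ) * S = ∑ k ∈ Finset.range (N + Q), ∑ q ∈ Finset.range Q, u (k + q) := by
    rw [Finset.sum_comm, Finset.sum_congr rfl hwin, Finset.sum_const, Finset.card_range, nsmul_eq_mul]
  -- correlations
  have hc0 : ‖WD_c y N 0‖ ≤ N := by
    unfold WD_c
    refine (norm_sum_le _ _).trans ?_
    calc ∑ i ∈ Finset.range (N - 0), ‖y (i + 0) * (starRingEnd ℂ) (y i)‖ ≤ ∑ i ∈ Finset.range (N - 0), (1 : ℝ) := by
          refine Finset.sum_le_sum fun i _ => ?_
          rw [norm_mul, RCLike.norm_conj]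
          exact mul_le_one₀ (hy _) (norm_nonneg _) (hy _)
      _ = N := by simp
  have hcr : ∀ q ∈ Finset.range Q, ∀ q' ∈ Finset.range Q,
      ‖∑ k ∈ Finset.range (N + Q), u (k + q) * (starRingEnd ℂ) (u (k + q'))‖ ≤
        (if q' = q then (N : ℝ) else 0) + (if q' < q then ‖WD_c y N (q - q')‖ else 0) + (if q < q' then ‖WD_c y N (q' - q)‖ else 0) := by
    intro q hq q' hq'
    rw [Finset.mem_range] at hq hq'
    rcases lt_trichotomy q' q with h | h | h
    · have h1 := WD_corr y N Q (q - q') q' hq'.le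
      have h2 : ∀ k, k + q' + (q - q') = k + q := fun k => by omega
      simp only [h2] at h1
      rw [hu, h1, if_neg h.ne, if_pos h, if_neg (not_lt.2 h.le)]
      simp
    · subst h
      have h1 := WD_corr y N Q 0 q' hq'.le
      simp only [add_zero] at h1
      rw [hu, h1, if_pos rfl, if_neg (lt_irrefl _)]
      simpa using hc0
    · have h1 := WD_corr y N Q (q' - q) q hq.le
      have h2 : ∀ k, k + q + (q' - q) = k + q' := fun k => by omega
      simp only [h2] at h1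
      have h3 : ∑ k ∈ Finset.range (N + Q), u (k + q) * (starRingEnd ℂ) (u (k + q')) = (starRingEnd ℂ) (WD_c y N (q' - q)) := by
        rw [← h1, map_sum]
        refine Finset.sum_congr rfl fun k _ => ?_
        rw [map_mul, Complex.conj_conj, mul_comm]
      rw [h3, RCLike.norm_conj, if_neg h.ne', if_neg (not_lt.2 h.le), if_pos h]
      simp
  -- sums over q'
  have hA : ∀ q ∈ Finset.range Q, ∑ q' ∈ Finset.range Q, (if q' < q then ‖WD_c y N (q - q')‖ else 0) ≤ T := by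
    intro q hq
    rw [Finset.mem_range] at hq
    rw [← Finset.sum_filter]
    have h1 : ∑ q' ∈ (Finset.range Q).filter (fun q' => q' < q), ‖WD_c y N (q - q')‖ =
        ∑ h ∈ ((Finset.range Q).filter (fun q' => q' < q)).image (fun q' => q - q'), ‖WD_c y N h‖ := by
      rw [Finset.sum_image]
      intro x hx x' hx' h
      simp only [Finset.coe_filter, Finset.mem_range, Set.mem_ofPred_eq] at hx hx' h
      omega
    rw [h1]
    refine Finset.sum_le_sum_of_subset_of_nonneg ?_ fun _ _ _ => norm_nonneg _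
    intro h hh
    simp only [Finset.mem_image, Finset.mem_filter, Finset.mem_range] at hh
    obtain ⟨q', ⟨h2, h3⟩, h4⟩ := hh
    rw [Finset.mem_Ioo]
    omega
  have hB : ∀ q ∈ Finset.range Q, ∑ q' ∈ Finset.range Q, (if q < q' then ‖WD_c y N (q' - q)‖ else 0) ≤ T := by
    intro q hq
    rw [Finset.mem_range] at hq
    rw [← Finset.sum_filter]
    have h1 : ∑ q' ∈ (Finset.range Q).filter (fun q' => q < q'), ‖WD_c y N (q' - q)‖ =
        ∑ h ∈ ((Finset.range Q).filter (fun q' => q < q')).image (fun q' => q' - q), ‖WD_c y N h‖ := by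
      rw [Finset.sum_image]
      intro x hx x' hx' h
      simp only [Finset.coe_filter, Finset.mem_range, Set.mem_ofPred_eq] at hx hx' h
      omega
    rw [h1]
    refine Finset.sum_le_sum_of_subset_of_nonneg ?_ fun _ _ _ => norm_nonneg _
    intro h hh
    simp only [Finset.mem_image, Finset.mem_filter, Finset.mem_range] at hh
    obtain ⟨q', ⟨h2, h3⟩, h4⟩ := hh
    rw [Finset.mem_Ioo]
    omega
  -- the mean square
  have hms : ∑ k ∈ Finset.range (N + Q), ‖∑ q ∈ Finset.range Q, u (k + q)‖ ^ 2 ≤ Q * ((N : ℝ) + 2 * T) := by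
    have h1 : ((∑ k ∈ Finset.range (N + Q), ‖∑ q ∈ Finset.range Q, u (k + q)‖ ^ 2 : ℝ) : ℂ) =
        ∑ q ∈ Finset.range Q, ∑ q' ∈ Finset.range Q, ∑ k ∈ Finset.range (N + Q), u (k + q) * (starRingEnd ℂ) (u (k + q')) := by
      have h2 : ∀ k, ((‖∑ q ∈ Finset.range Q, u (k + q)‖ ^ 2 : ℝ) : ℂ) =
          ∑ q ∈ Finset.range Q, ∑ q' ∈ Finset.range Q, u (k + q) * (starRingEnd ℂ) (u (k + q')) := by
        intro k
        push_cast
        rw [← Complex.mul_conj', map_sum, Finset.sum_mul_sum]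
      rw [Complex.ofReal_sum, Finset.sum_congr rfl fun k _ => h2 k, Finset.sum_comm]
      refine Finset.sum_congr rfl fun q _ => ?_
      rw [Finset.sum_comm]
    have h3 : 0 ≤ ∑ k ∈ Finset.range (N + Q), ‖∑ q ∈ Finset.range Q, u (k + q)‖ ^ 2 := Finset.sum_nonneg fun _ _ => by positivity
    have h4 := congrArg norm h1
    rw [Complex.norm_real, Real.norm_of_nonneg h3] at h4
    rw [h4]
    refine (norm_sum_le _ _).trans ?_
    calc ∑ q ∈ Finset.range Q, ‖∑ q' ∈ Finset.range Q, ∑ k ∈ Finset.range (N + Q), u (k + q) * (starRingEnd ℂ) (u (k + q'))‖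
        ≤ ∑ q ∈ Finset.range Q, ((N : ℝ) + 2 * T) := by
          refine Finset.sum_le_sum fun q hq => ?_
          refine (norm_sum_le _ _).trans ((Finset.sum_le_sum fun q' hq' => hcr q hq q' hq').trans ?_)
          rw [Finset.sum_add_distrib, Finset.sum_add_distrib]
          have h5 := hA q hq
          have h6 := hB q hq
          have h7 : ∑ q' ∈ Finset.range Q, (if q' = q then (N : ℝ) else 0) ≤ N := by
            rw [Finset.sum_ite_eq', if_pos hq]
          linarith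
      _ = Q * ((N : ℝ) + 2 * T) := by
          rw [Finset.sum_const, Finset.card_range, nsmul_eq_mul]
  -- Cauchy-Schwarz
  have hcs : ‖∑ k ∈ Finset.range (N + Q), ∑ q ∈ Finset.range Q, u (k + q)‖ ^ 2 ≤
      ((N : ℝ) + Q) * ∑ k ∈ Finset.range (N + Q), ‖∑ q ∈ Finset.range Q, u (k + q)‖ ^ 2 := by
    have h1 : ‖∑ k ∈ Finset.range (N + Q), ∑ q ∈ Finset.range Q, u (k + q)‖ ≤ ∑ k ∈ Finset.range (N + Q), ‖∑ q ∈ Finset.range Q, u (k + q)‖ :=
      norm_sum_le _ _
    have h2 : (∑ k ∈ Finset.range (N + Q), ‖∑ q ∈ Finset.range Q, u (k + q)‖) ^ 2 ≤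
        ((Finset.range (N + Q)).card : ℝ) * ∑ k ∈ Finset.range (N + Q), ‖∑ q ∈ Finset.range Q, u (k + q)‖ ^ 2 :=
      sq_sum_le_card_mul_sum_sq
    rw [Finset.card_range] at h2
    push_cast at h2
    exact (pow_le_pow_left₀ (norm_nonneg _) h1 2).trans h2
  rw [← hQS, norm_mul, Complex.norm_natCast, mul_pow] at hcs
  have hQ0 : (0 : ℝ) < Q := by exact_mod_cast hQ
  have hNQ : (Q : ℝ) ≤ N := by exact_mod_cast hN
  have hfin : (Q : ℝ) ^ 2 * ‖S‖ ^ 2 ≤ (Q : ℝ) ^ 2 * (2 * ((N : ℝ) / Q) * ((N : ℝ) + 2 * T)) := by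
    calc (Q : ℝ) ^ 2 * ‖S‖ ^ 2 ≤ ((N : ℝ) + Q) * (Q * ((N : ℝ) + 2 * T)) :=
          hcs.trans (mul_le_mul_of_nonneg_left hms (by positivity))
      _ ≤ (2 * N) * (Q * ((N : ℝ) + 2 * T)) := by
          refine mul_le_mul_of_nonneg_right (by linarith) (by positivity)
      _ = (Q : ℝ) ^ 2 * (2 * ((N : ℝ) / Q) * ((N : ℝ) + 2 * T)) := by
          field_simp
  exact le_of_mul_le_mul_left hfin (by positivity)

theorem WD : WD_stmt := by
  intro z a b Q hz hQ hab
  obtain ⟨N, rfl⟩ : ∃ N, b = a + N := ⟨b - a, by omega⟩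
  have hioc : ∀ (f : ℕ → ℂ) (M : ℕ), ∑ n ∈ Finset.Ioc a (a + M), f n = ∑ i ∈ Finset.range M, f (a + 1 + i) := by
    intro f M
    have h1 : Finset.Ioc a (a + M) = Finset.Ico (a + 1) (a + M + 1) := by
      ext n
      rw [Finset.mem_Ioc, Finset.mem_Ico]
      omega
    rw [h1, Finset.sum_Ico_eq_sum_range]
    congr 2
    omega
  have h0 := WD_core (fun i => z (a + 1 + i)) N Q (fun i => hz _) hQ (by omega)
  have h1 : ∀ q ∈ Finset.Ioo 0 Q, ‖∑ n ∈ Finset.Ioc a (a + N - q), z (n + q) * (starRingEnd ℂ) (z n)‖ =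
      ‖WD_c (fun i => z (a + 1 + i)) N q‖ := by
    intro q hq
    rw [Finset.mem_Ioo] at hq
    have h2 : a + N - q = a + (N - q) := by omega
    rw [h2, hioc]
    unfold WD_c
    simp only [add_assoc]
  rw [hioc, Finset.sum_congr rfl h1]
  have h2 : (((a + N : ℕ) : ℝ) - a) = N := by
    push_cast
    ring
  rw [h2]
  exact h0

end Pool.Agent.LDH
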